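import Pool.Agent.Q144.EG.Main

set_option autoImplicit false

/-!
Graphs with a linear number of edges for all finite groups generated by boundedly many soluble
subgroups.
-/

namespace Pool.Agent.Results.MP_585e73_co.SolublyGenerated

open Pool.Agent.Q144.EG

/-- There is a constant `c` such that every finite group `G` generated by `r` soluble subgroups is
the automorphism group of a finite graph with at most `c r |G|` edges. -/
theorem result : ∃ c : ℕ, ∀ (G : Type) [Group G] [Finite G] (r : ℕ) (S : Fin r → Subgroup G),
    (∀ i, Group.IsSolvable (S i)) → (⨆ i, S i) = ⊤ →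
    ∃ (V : Type) (_ : Finite V) (X : SimpleGraph V),
      Nonempty ((X ≃g X) ≃* G) ∧ Nat.card X.edgeSet ≤ c * r * Nat.card G := by
  refine ⟨304, ?_⟩
  intro G _ _ r S hS hgen
  rcases subsingleton_or_nontrivial G with hs | hs
  · refine ⟨Unit, inferInstance, ⊥, ⟨?_⟩, ?_⟩
    · have h1 : Subsingleton ((⊥ : SimpleGraph Unit) ≃g (⊥ : SimpleGraph Unit)) :=
        ⟨fun a b => RelIso.ext fun x => Subsingleton.elim _ _⟩
      exact { toFun := fun _ => 1
              invFun := fun _ => RelIso.refl _
              left_inv := fun _ => Subsingleton.elim _ _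
              right_inv := fun _ => Subsingleton.elim _ _
              map_mul' := fun _ _ => Subsingleton.elim _ _ }
    · simp
  · have hcard : 2 ≤ Nat.card G := Finite.one_lt_card
    have hr : 1 ≤ r := by
      by_contra h
      have h0 : r = 0 := by omega
      subst h0
      rw [iSup_of_empty] at hgen
      exact bot_ne_top hgen
    obtain ⟨Λ, h1, h2, h3⟩ := rclaim r S hS
    rw [hgen] at h3
    obtain ⟨V, hV, X, hX1, hX2⟩ := graph_of_links h1 hcard
      (fun π hπ => h3 π hπ (fun _ _ _ => trivial))
    refine ⟨V, hV, X, hX1, hX2.trans ?_⟩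
    have h4 : Nat.card G ≤ r * Nat.card G := Nat.le_mul_of_pos_left _ hr
    have h5 : r * (25 * Nat.card G) = 25 * (r * Nat.card G) := by ring
    rw [h5] at h2
    have h6 : 304 * r * Nat.card G = 304 * (r * Nat.card G) := by ring
    rw [h6]
    omega

end Pool.Agent.Results.MP_585e73_co.SolublyGenerated
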